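import Pool.Agent.Y808.DR.Stm

/-! # Project DR, part QR: a regular system of parameters is quasi-regular (by helper153) -/

set_option autoImplicit false

namespace Pool.Agent.Y153.DR

open IsLocalRing Pool.Agent.Y808.DR

universe u

/-- scaling of the arguments of a homogeneous polynomial -/
theorem eval_scale {R σ : Type*} [CommRing R] {G : MvPolynomial σ R} {j : ℕ}
    (hG : G.IsHomogeneous j) (c : R) (x : σ → R) :
    MvPolynomial.eval (fun i => c * x i) G = c ^ j * MvPolynomial.eval x G := by
  rw [MvPolynomial.eval_eq, MvPolynomial.eval_eq, Finset.mul_sum]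
  refine Finset.sum_congr rfl fun d hd => ?_
  have h1 : ∑ i ∈ d.support, d i = j := by
    have h2 := hG (MvPolynomial.mem_support_iff.1 hd)
    rw [← h2, Finsupp.weight_apply]
    simp [Finsupp.sum]
  simp_rw [mul_pow]
  rw [Finset.prod_mul_distrib, Finset.prod_pow_eq_pow_sum, h1]
  ring

theorem lift_mul {B : Type u} [CommRing B] {d : ℕ} (z : Fin d → B) (I : Ideal B) (j : ℕ) (x : B)
    (hx : x ∈ I * Ideal.span (Set.range z) ^ j) :
    ∃ H : MvPolynomial (Fin d) B, H.IsHomogeneous j ∧ MvPolynomial.eval z H = x ∧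
      ∀ m, H.coeff m ∈ I := by
  refine Submodule.mul_induction_on hx ?_ ?_
  · intro a ha b hb
    obtain ⟨P, hP, hPb⟩ := (Ideal.mem_span_pow_iff_exists_isHomogeneous z b).1 hb
    refine ⟨MvPolynomial.C a * P, ?_, ?_, fun m => ?_⟩
    · have := (MvPolynomial.isHomogeneous_C (Fin d) a).mul hP
      rwa [zero_add] at this
    · rw [map_mul, MvPolynomial.eval_C, hPb]
    · rw [MvPolynomial.coeff_C_mul]
      exact I.mul_mem_right _ ha
  · rintro a b ⟨P, hP, hPa, hPI⟩ ⟨R, hR, hRb, hRI⟩
    refine ⟨P + R, hP.add hR, ?_, fun m => ?_⟩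
    · rw [map_add, hPa, hRb]
    · rw [MvPolynomial.coeff_add]
      exact I.add_mem (hPI m) (hRI m)

theorem t_QR : S_QR.{u} := by
  classical
  intro B _ _ _ d z hdim hz j G hG hGz m0
  by_contra hm0
  -- reduce to `G(z) = 0`
  rw [pow_succ', ← hz] at hGz
  obtain ⟨H, hH, hHz, hHm⟩ := lift_mul z _ j _ hGz
  rw [hz] at hHm
  obtain ⟨F, hF⟩ : ∃ F, F = G - H := ⟨_, rfl⟩
  have hFh : F.IsHomogeneous j := by
    rw [hF]
    exact hG.sub hH
  have hFz : MvPolynomial.eval z F = 0 := by
    rw [hF, map_sub, hHz, sub_self]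
  have hFm : F.coeff m0 ∉ maximalIdeal B := by
    intro h
    apply hm0
    have h1 : G.coeff m0 = F.coeff m0 + H.coeff m0 := by
      rw [hF, MvPolynomial.coeff_sub]
      ring
    rw [h1]
    exact Ideal.add_mem _ h (hHm m0)
  -- a point where the reduction does not vanish
  have hinf : Infinite (ResidueField B) := by
    have : CharZero (ResidueField B) :=
      charZero_of_injective_algebraMap (algebraMap ℚ (ResidueField B)).injective
    infer_instance
  set Fb : MvPolynomial (Fin d) (ResidueField B) := MvPolynomial.map (residue B) F with hFb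
  have hFb0 : Fb ≠ 0 := by
    intro h
    apply hFm
    have h1 : Fb.coeff m0 = 0 := by rw [h, MvPolynomial.coeff_zero]
    rw [hFb, MvPolynomial.coeff_map] at h1
    exact (residue_eq_zero_iff _).1 h1
  have hFbh : Fb.IsHomogeneous j := hFh.map _
  obtain ⟨μ, hμ⟩ : ∃ μ : Fin d → ResidueField B, MvPolynomial.eval μ Fb ≠ 0 := by
    by_contra hcon
    push Not at hcon
    exact hFb0 (MvPolynomial.funext fun x => by rw [hcon x, map_zero])
  choose lam hlam using fun i => residue_surjective (R := B) (μ i)
  have hunit : IsUnit (MvPolynomial.eval lam F) := by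
    by_contra hcon
    have h1 : residue B (MvPolynomial.eval lam F) = 0 :=
      (residue_eq_zero_iff _).2 ((mem_maximalIdeal _).2 hcon)
    apply hμ
    rw [← h1, hFb, MvPolynomial.eval_map]
    have h2 := MvPolynomial.eval₂_comp_left (residue B) (RingHom.id B) lam F
    rw [RingHom.comp_id] at h2
    have h3 : (residue B ∘ lam) = μ := funext hlam
    rw [h3] at h2
    exact h2.symm
  have hj : j ≠ 0 := by
    intro hj
    have h1 := eval_scale hFh 0 z
    have h2 := eval_scale hFh 0 lam
    rw [hj, pow_zero, one_mul] at h1 h2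
    simp only [zero_mul] at h1 h2
    rw [← h2, h1, hFz] at hunit
    exact not_isUnit_zero hunit
  obtain ⟨i0, hi0⟩ : ∃ i0, μ i0 ≠ 0 := by
    by_contra hcon
    push Not at hcon
    apply hμ
    have h1 := eval_scale hFbh 0 μ
    rw [zero_pow hj, zero_mul] at h1
    rw [← h1]
    congr 2
    funext i
    rw [hcon i, zero_mul]
  have hl0 : IsUnit (lam i0) := by
    by_contra hcon
    apply hi0
    rw [← hlam]
    exact (residue_eq_zero_iff _).2 ((mem_maximalIdeal _).2 hcon)
  obtain ⟨l', hl'⟩ := hl0.exists_right_inv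
  set t : B := l' * z i0 with ht
  set y : Fin d → B := fun i => z i - lam i * t with hy
  have hy0 : y i0 = 0 := by
    simp only [hy, ht]
    rw [← mul_assoc, hl', one_mul, sub_self]
  set s : Finset B := (Finset.univ.erase i0).image y with hs
  set J : Ideal B := Ideal.span (s : Set B) with hJ
  have hyJ : ∀ i, y i ∈ J := by
    intro i
    by_cases hi : i = i0
    · rw [hi, hy0]
      exact J.zero_mem
    · apply Ideal.subset_span
      rw [hs, Finset.coe_image]
      exact ⟨i, by simpa using hi, rfl⟩
  have hzm : ∀ i, z i ∈ maximalIdeal B := fun i => by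
    rw [← hz]
    exact Ideal.subset_span ⟨i, rfl⟩
  have htm : t ∈ maximalIdeal B := Ideal.mul_mem_left _ _ (hzm i0)
  have hJm : J ≤ maximalIdeal B := by
    rw [hJ, Ideal.span_le]
    intro x hx
    rw [hs, Finset.coe_image] at hx
    obtain ⟨i, -, rfl⟩ := hx
    exact Ideal.sub_mem _ (hzm i) (Ideal.mul_mem_left _ _ htm)
  -- `t ^ j ∈ J`
  have htJ : t ^ j ∈ J := by
    have h1 : Ideal.Quotient.mk J (MvPolynomial.eval z F) =
        Ideal.Quotient.mk J (MvPolynomial.eval (fun i => t * lam i) F) := by
      have h2 := MvPolynomial.eval₂_comp_left (Ideal.Quotient.mk J) (RingHom.id B) z F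
      have h3 := MvPolynomial.eval₂_comp_left (Ideal.Quotient.mk J) (RingHom.id B)
        (fun i => t * lam i) F
      have h4 : (Ideal.Quotient.mk J) ∘ z = (Ideal.Quotient.mk J) ∘ (fun i => t * lam i) := by
        funext i
        simp only [Function.comp_apply]
        rw [Ideal.Quotient.eq]
        have h5 := hyJ i
        simp only [hy] at h5
        rw [mul_comm t]
        exact h5
      rw [h4] at h2
      exact h2.trans h3.symm
    rw [hFz, map_zero, eval_scale hFh t lam] at h1
    have h6 : t ^ j * MvPolynomial.eval lam F ∈ J := Ideal.Quotient.eq_zero_iff_mem.1 h1.symm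
    obtain ⟨w, hw⟩ := hunit.exists_right_inv
    have h7 : t ^ j = t ^ j * MvPolynomial.eval lam F * w := by
      rw [mul_assoc, hw, mul_one]
    rw [h7]
    exact J.mul_mem_right _ h6
  have hmr : maximalIdeal B ≤ J.radical := by
    rw [← hz, Ideal.span_le]
    rintro _ ⟨i, rfl⟩
    have h1 : z i = y i + lam i * t := by
      simp only [hy]
      ring
    rw [h1]
    exact Ideal.add_mem _ (Ideal.le_radical (hyJ i)) (Ideal.mul_mem_left _ _ ⟨j, htJ⟩)
  have hmin : maximalIdeal B ∈ J.minimalPrimes := by
    refine ⟨⟨(maximalIdeal.isMaximal B).isPrime, hJm⟩, ?_⟩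
    rintro P ⟨hP, hJP⟩ _
    exact hmr.trans (hP.radical_le_iff.2 hJP)
  have hh := Ideal.height_le_card_of_mem_minimalPrimes_span_finset hmin
  have hcard : s.card < d := by
    calc s.card ≤ (Finset.univ.erase i0).card := Finset.card_image_le
      _ < (Finset.univ : Finset (Fin d)).card := Finset.card_erase_lt_of_mem (Finset.mem_univ i0)
      _ = d := by rw [Finset.card_univ, Fintype.card_fin]
  have h8 := IsLocalRing.maximalIdeal_height_eq_ringKrullDim (R := B)
  rw [hdim] at h8
  have h9 : (maximalIdeal B).height = (d : ℕ∞) := by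
    exact_mod_cast h8
  rw [h9] at hh
  have h10 : d ≤ s.card := by exact_mod_cast hh
  omega

end Pool.Agent.Y153.DR
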